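import Mathlib

set_option autoImplicit false

/-!
# FAM: open families of morphisms of the plane without periodic curves, definitions

Paper: `Lib/MP_2194ec_nt/Fam/Family.md`.
-/

namespace Pool.DynLehmerFam

open MvPolynomial IsLocalRing

/-- reduction of polynomials over a local ring -/
noncomputable abbrev rd (O : Type) [CommRing O] [IsLocalRing O] :
    MvPolynomial (Fin 3) O →+* MvPolynomial (Fin 3) (ResidueField O) :=
  MvPolynomial.map (residue O)

/-- `(x, y, z) ↦ (x, w y, w z)` -/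
noncomputable def sb {O : Type} [CommRing O] (w : O) :
    MvPolynomial (Fin 3) O →ₐ[O] MvPolynomial (Fin 3) O :=
  aeval ![X 0, C w * X 1, C w * X 2]

/-- `M (s₀, s₁) = (a s₀ + b s₁, c s₀ + d s₁)` for `M = [[a, b], [c, d]]` -/
def act {k : Type} [CommRing k] (M : Matrix (Fin 2) (Fin 2) k) (s : Fin 2 → k) : Fin 2 → k :=
  ![M 0 0 * s 0 + M 0 1 * s 1, M 1 0 * s 0 + M 1 1 * s 1]

/-- `chi (y, z) = y ^ q (c y + d z) - z ^ q (a y + b z)`: its zeros on `P^1` are the points `s` with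
`(s₀ ^ q : s₁ ^ q) = M s` -/
def chi {k : Type} [CommRing k] (q : ℕ) (M : Matrix (Fin 2) (Fin 2) k) (s : Fin 2 → k) : k :=
  s 0 ^ q * act M s 1 - s 1 ^ q * act M s 0

/-- condition (c): `chi` and `chi ∘ M ^ r`, `r = 1, 2, 3`, have no common zero on `P^1` over an
algebraically closed field -/
def NoCommon {k : Type} [Field k] (q : ℕ) (M : Matrix (Fin 2) (Fin 2) k) : Prop :=
  ∀ s : Fin 2 → AlgebraicClosure k, s ≠ 0 →
    chi q (M.map (algebraMap k (AlgebraicClosure k))) s = 0 → ∀ r : ℕ, 1 ≤ r → r ≤ 3 →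
    chi q (M.map (algebraMap k (AlgebraicClosure k)))
      ((act (M.map (algebraMap k (AlgebraicClosure k))))^[r] s) ≠ 0

/-- the second and third form of the map at a vertex, `y ^ q + x ^ (q - 1) (a y + b z)` and
`z ^ q + x ^ (q - 1) (c y + d z)` -/
noncomputable def YY {k : Type} [CommRing k] (q : ℕ) (M : Matrix (Fin 2) (Fin 2) k) :
    MvPolynomial (Fin 3) k :=
  X 1 ^ q + X 0 ^ (q - 1) * (C (M 0 0) * X 1 + C (M 0 1) * X 2)

noncomputable def ZZ {k : Type} [CommRing k] (q : ℕ) (M : Matrix (Fin 2) (Fin 2) k) :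
    MvPolynomial (Fin 3) k :=
  X 2 ^ q + X 0 ^ (q - 1) * (C (M 1 0) * X 1 + C (M 1 1) * X 2)

/-- the data at the vertex `(1, 0, 0)` -/
structure VData {O : Type} [CommRing O] [IsLocalRing O] (q : ℕ) (w : O)
    (F F' : Fin 3 → MvPolynomial (Fin 3) O) (M : Matrix (Fin 2) (Fin 2) (ResidueField O)) :
    Prop where
  w0 : w ≠ 0
  wm : residue O w = 0
  hF : ∀ i, (F i).IsHomogeneous q
  hF' : ∀ i, (F' i).IsHomogeneous q
  redF : ∀ i, rd O (F i) = X i ^ q
  s0 : sb w (F 0) = F' 0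
  s1 : sb w (F 1) = C (w ^ q) * F' 1
  s2 : sb w (F 2) = C (w ^ q) * F' 2
  r0 : rd O (F' 0) = X 0 ^ q
  r1 : rd O (F' 1) = YY q M
  r2 : rd O (F' 2) = ZZ q M
  det : M.det ≠ 0
  nc : NoCommon q M

/-- MODULE IRR: the conics `v Y - u Z`, `(u, v) = M s`, are irreducible if `chi s ≠ 0`
(any field: `v Y - u Z = x ^ (q-1) L + P`, `L = det M (s₁ y - s₀ z)`, `P = v y ^ q - u z ^ q`,
`P s = chi s ≠ 0`, so the linear form `L` does not divide `P`; Eisenstein at `L` for the reversed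
polynomial in `x`) -/
def IrrStatement : Prop :=
  ∀ (k : Type) [Field k] (q : ℕ) (M : Matrix (Fin 2) (Fin 2) k) (s : Fin 2 → k), 2 ≤ q →
    M.det ≠ 0 → chi q M s ≠ 0 → Irreducible (C (act M s 1) * YY q M - C (act M s 0) * ZZ q M)

/-- MODULE S1 -/
def S1Statement : Prop :=
  ∀ (k : Type) [Field k] [IsAlgClosed k] (q : ℕ) (H G : MvPolynomial (Fin 3) k) (m : ℕ), 2 ≤ q →
    (q : k) ≠ 0 → H.IsHomogeneous m → H ≠ 0 → H ∣ expand q H → Irreducible G → G ∣ H →
    ∃ i, eval (Pi.single i 1) G = 0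

/-- MODULE KEY (helper9) -/
def KeyStatement : Prop :=
  ∀ (O : Type) [CommRing O] [IsDomain O] [ValuationRing O] (KK : Type) [Field KK] [Algebra O KK]
    [IsFractionRing O KK] (q : ℕ) (F' : Fin 3 → MvPolynomial (Fin 3) O),
    (∀ i, (F' i).IsHomogeneous q) → 0 < q →
    (∃ n0 : ℕ, ∀ n, n0 ≤ n → ∀ G : MvPolynomial (Fin 3) (ResidueField O), G.IsHomogeneous n →
      G ∈ Ideal.span (Set.range fun i => rd O (F' i))) →
    ∀ (g : MvPolynomial (Fin 3) O) (e : ℕ), g.IsHomogeneous e → 0 < e → rd O g ≠ 0 →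
    ∀ (Kf : MvPolynomial (Fin 3) O) (m : ℕ), Kf.IsHomogeneous m →
    Irreducible (MvPolynomial.map (algebraMap O KK) Kf) → rd O Kf ≠ 0 → g ∣ bind₁ F' Kf →
    ∀ (τ : MvPolynomial (Fin 3) (ResidueField O)) (d : ℕ), Prime τ → τ.IsHomogeneous d → 0 < d →
    τ ∣ rd O Kf → IsRelPrime (rd O g) (bind₁ (fun i => rd O (F' i)) τ) → False

/-- MODULE DEG: the degree of the image curve -/
def DegStatement : Prop :=
  ∀ (K : Type) [Field K] (q : ℕ) (F : Fin 3 → MvPolynomial (Fin 3) K), 0 < q →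
    (∀ i, (F i).IsHomogeneous q) →
    (∃ n0 : ℕ, ∀ n, n0 ≤ n → ∀ G : MvPolynomial (Fin 3) K, G.IsHomogeneous n →
      G ∈ Ideal.span (Set.range F)) →
    ∀ (g H : MvPolynomial (Fin 3) K) (e m : ℕ), g.IsHomogeneous e → H.IsHomogeneous m → 0 < e →
    Irreducible g → Irreducible H → g ∣ bind₁ F H → m ≤ 2 * q * e

/-- a cycle of irreducible forms over `K` with integral primitive representatives -/
structure Cycle {O : Type} [CommRing O] [IsLocalRing O] (K : Type) [Field K] [Algebra O K]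
    (F : Fin 3 → MvPolynomial (Fin 3) O) (n : ℕ) (H h : ℕ → MvPolynomial (Fin 3) O)
    (m e : ℕ → ℕ) : Prop where
  npos : 0 < n
  per : ∀ i, H (i + n) = H i
  hH : ∀ i, (H i).IsHomogeneous (m i)
  mpos : ∀ i, 0 < m i
  hh : ∀ i, (h i).IsHomogeneous (e i)
  irr : ∀ i, Irreducible (MvPolynomial.map (algebraMap O K) (H i))
  rH : ∀ i, rd O (H i) ≠ 0
  rh : ∀ i, rd O (h i) ≠ 0
  mul : ∀ i, bind₁ F (H (i + 1)) = H i * h i

/-- MODULE VERTEX (helper8): no curve of the cycle passes through the vertex modulo the maximal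
ideal -/
def VertexStatement : Prop :=
  ∀ (O : Type) [CommRing O] [IsDomain O] [ValuationRing O] (K : Type) [Field K] [Algebra O K]
    [IsFractionRing O K] (q : ℕ) (w : O) (F F' : Fin 3 → MvPolynomial (Fin 3) O)
    (M : Matrix (Fin 2) (Fin 2) (ResidueField O)), 2 ≤ q → (q : ResidueField O) ≠ 0 →
    VData q w F F' M → ∀ (n : ℕ) (H h : ℕ → MvPolynomial (Fin 3) O) (m e : ℕ → ℕ),
    Cycle K F n H h m e → eval (Pi.single 0 1) (rd O (H 0)) ≠ 0

end Pool.DynLehmerFam
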