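import Pool.Agent.Lib.MP_2194ec_nt.Fam.VertexA

set_option autoImplicit false

/-!
# FAM: statements of the remaining modules
-/

namespace Pool.DynLehmerFam

open MvPolynomial IsLocalRing

/-- MODULE ZEROS (S5, helper8) -/
def ZerosStatement : Prop :=
  ∀ (O : Type) [CommRing O] [IsDomain O] [ValuationRing O] (K : Type) [Field K] [Algebra O K]
    [IsFractionRing O K] (q : ℕ) (w : O) (F F' : Fin 3 → MvPolynomial (Fin 3) O)
    (M : Matrix (Fin 2) (Fin 2) (ResidueField O)), 2 ≤ q → VData q w F F' M →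
    ∀ (m e : ℕ → ℕ) (g Kf : ℕ → MvPolynomial (Fin 3) O) (a : ℕ)
      (T : ℕ → MvPolynomial (Fin 2) (ResidueField O)), Local K F' M m e g Kf a T →
    ∀ i, 0 < e i → ∀ s : Fin 2 → AlgebraicClosure (ResidueField O), s ≠ 0 → aeval s (T i) = 0 →
      chi q (M.map (algebraMap (ResidueField O) (AlgebraicClosure (ResidueField O)))) s = 0

/-- MODULE S6 (helper9): `VertexStatement` from `ZerosStatement` and `DegStatement`
(`local_exists` in VertexA.lean gives `Local`; hypotheses of `DegStatement` for `F` over `K` by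
`hfin_res_frac`, since `rd O (F i) = X i ^ q`) -/
def S6Statement : Prop := ZerosStatement → DegStatement → VertexStatement

/-- cyclic renaming of the variables and of the map: vertex `j` becomes vertex `0` -/
noncomputable def rot {O : Type} [CommRing O] (j : Fin 3) (F : Fin 3 → MvPolynomial (Fin 3) O) :
    Fin 3 → MvPolynomial (Fin 3) O :=
  fun i => rename (fun l => l - j) (F (i + j))

/-- MODULE NOCYCLE (helper8): no periodic curve -/
def NoCycleStatement : Prop :=
  ∀ (O : Type) [CommRing O] [IsDomain O] [ValuationRing O] (K : Type) [Field K] [Algebra O K]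
    [IsFractionRing O K] (q : ℕ) (w : O) (F : Fin 3 → MvPolynomial (Fin 3) O), 2 ≤ q →
    (q : ResidueField O) ≠ 0 →
    (∀ j : Fin 3, ∃ (F' : Fin 3 → MvPolynomial (Fin 3) O)
      (M : Matrix (Fin 2) (Fin 2) (ResidueField O)), VData q w (rot j F) F' M) →
    ∀ (n : ℕ) (H : ℕ → MvPolynomial (Fin 3) K), 0 < n → (∀ i, H (i + n) = H i) →
    (∀ i, ∃ m : ℕ, (H i).IsHomogeneous m) → (∀ i, Irreducible (H i)) →
    (∀ i, H i ∣ bind₁ (fun j => MvPolynomial.map (algebraMap O K) (F j)) (H (i + 1))) → False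

/-- the forms of the general class: `F_i = X_i ^ q + w ^ (q - 1) E_i` with
`E_i = c X_{i+2} ^ (q-1) X_{i+1} + X_{i+1} ^ (q-1) (c' X_{i+2} + 4 c'' X_i)`; for `q = 2` the first
two terms have the same monomial, we take one of them -/
noncomputable def Fgen {O : Type} [CommRing O] (q : ℕ) (w : O) (i : Fin 3) :
    MvPolynomial (Fin 3) O :=
  X i ^ q + C (w ^ (q - 1)) *
    ((if q = 2 then 0 else X (i + 2) ^ (q - 1) * X (i + 1)) +
      X (i + 1) ^ (q - 1) * (X (i + 2) + C 4 * X i))

/-- MODULE GENCLASS (helper53 or helper9): the class of `Fgen` modulo `w ^ (q + 1)` satisfies the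
vertex conditions with `M = [[0, 1], [1, 4]]` at all vertices -/
def GenClassStatement : Prop :=
  ∀ (O : Type) [CommRing O] [IsDomain O] [ValuationRing O] (q : ℕ) (w : O)
    (F : Fin 3 → MvPolynomial (Fin 3) O), 2 ≤ q → w ≠ 0 → residue O w = 0 →
    (∀ i, (F i).IsHomogeneous q) → (∀ i, C (w ^ (q + 1)) ∣ F i - Fgen q w i) →
    (!![0, 1; 1, 4] : Matrix (Fin 2) (Fin 2) (ResidueField O)).det ≠ 0 →
    NoCommon q (!![0, 1; 1, 4] : Matrix (Fin 2) (Fin 2) (ResidueField O)) →
    ∀ j : Fin 3, ∃ F' : Fin 3 → MvPolynomial (Fin 3) O,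
      VData q w (rot j F) F' !![0, 1; 1, 4]

end Pool.DynLehmerFam
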