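import Pool.Agent.Lib.MP_2194ec_nt.Fam.Defs

set_option autoImplicit false

/-!
# Contents over a valuation ring, the substitution `sb`
-/

namespace Pool.DynLehmerFam

open MvPolynomial IsLocalRing

section val

variable {O : Type} [CommRing O] [IsDomain O] [ValuationRing O]

theorem exists_dvd_all (s : Finset O) (hs : s.Nonempty) : ∃ a ∈ s, ∀ b ∈ s, a ∣ b := by
  classical
  induction hs using Finset.Nonempty.cons_induction with
  | singleton a => exact ⟨a, Finset.mem_singleton_self a, fun b hb => by
      rw [Finset.mem_singleton.1 hb]⟩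
  | cons a s ha hs ih =>
    obtain ⟨b, hb, hb'⟩ := ih
    rcases ValuationRing.dvd_total a b with h | h
    · refine ⟨a, Finset.mem_cons_self a s, fun c hc => ?_⟩
      rcases Finset.mem_cons.1 hc with rfl | hc
      · exact dvd_rfl
      · exact h.trans (hb' c hc)
    · refine ⟨b, Finset.mem_cons_of_mem hb, fun c hc => ?_⟩
      rcases Finset.mem_cons.1 hc with rfl | hc
      · exact h
      · exact hb' c hc

/-- a nonzero polynomial is a constant times a polynomial with nonzero reduction -/
theorem exists_prim (G : MvPolynomial (Fin 3) O) (hG : G ≠ 0) :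
    ∃ (c : O) (G' : MvPolynomial (Fin 3) O), c ≠ 0 ∧ G = C c * G' ∧ rd O G' ≠ 0 := by
  classical
  have hne : (G.support.image fun d => coeff d G).Nonempty := by
    rw [Finset.image_nonempty, Finset.nonempty_iff_ne_empty]
    exact fun h => hG (support_eq_empty.1 h)
  obtain ⟨c, hc, hc'⟩ := exists_dvd_all _ hne
  obtain ⟨d, hd, rfl⟩ := Finset.mem_image.1 hc
  have hc0 : coeff d G ≠ 0 := mem_support_iff.1 hd
  have hdvd : C (coeff d G) ∣ G := by
    rw [C_dvd_iff_dvd_coeff]
    intro e
    by_cases he : e ∈ G.support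
    · exact hc' _ (Finset.mem_image_of_mem _ he)
    · rw [notMem_support_iff.1 he]; exact dvd_zero _
  obtain ⟨G', hG'⟩ := hdvd
  refine ⟨coeff d G, G', hc0, hG', ?_⟩
  intro h
  have h1 : coeff d G * coeff d G' = coeff d G * 1 := by
    rw [mul_one, ← coeff_C_mul, ← hG']
  have h2 := mul_left_cancel₀ hc0 h1
  have h3 := congrArg (coeff d) h
  rw [coeff_map, h2, map_one, coeff_zero] at h3
  exact one_ne_zero h3

/-- two scalings of polynomials with nonzero reduction differ by a unit -/
theorem unit_of_prim {A B : MvPolynomial (Fin 3) O} {c c' : O} (hc : c ≠ 0) (hc' : c' ≠ 0)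
    (hA : rd O A ≠ 0) (hB : rd O B ≠ 0) (h : C c * A = C c' * B) :
    ∃ u : O, IsUnit u ∧ c' = c * u ∧ A = C u * B := by
  rcases ValuationRing.dvd_total c c' with ⟨u, hu⟩ | ⟨u, hu⟩
  · have h1 : A = C u * B := by
      have hC : (C c : MvPolynomial (Fin 3) O) ≠ 0 := by rwa [Ne, C_eq_zero]
      apply mul_left_cancel₀ hC
      rw [h, hu, C_mul, mul_assoc]
    refine ⟨u, ?_, hu, h1⟩
    by_contra hnu
    apply hA
    rw [h1, map_mul, map_C, (residue_eq_zero_iff u).2 ((mem_maximalIdeal u).2 hnu), C_0, zero_mul]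
  · have h1 : B = C u * A := by
      have hC : (C c' : MvPolynomial (Fin 3) O) ≠ 0 := by rwa [Ne, C_eq_zero]
      apply mul_left_cancel₀ hC
      rw [← h, hu, C_mul, mul_assoc]
    have hun : IsUnit u := by
      by_contra hnu
      apply hB
      rw [h1, map_mul, map_C, (residue_eq_zero_iff u).2 ((mem_maximalIdeal u).2 hnu), C_0,
        zero_mul]
    obtain ⟨v, rfl⟩ := hun
    refine ⟨((v⁻¹ : Oˣ) : O), Units.isUnit _, ?_, ?_⟩
    · rw [hu, mul_assoc, Units.mul_inv, mul_one]
    · rw [h1, ← mul_assoc, ← C_mul, Units.inv_mul, C_1, one_mul]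

theorem residue_ne_zero {u : O} : residue O u ≠ 0 ↔ IsUnit u := by
  rw [Ne, residue_eq_zero_iff, mem_maximalIdeal, mem_nonunits_iff, not_not]

end val

section sbs

variable {O : Type} [CommRing O]

theorem coeff_sb (w : O) (P : MvPolynomial (Fin 3) O) (d : Fin 3 →₀ ℕ) :
    coeff d (sb w P) = w ^ (d 1 + d 2) * coeff d P := by
  classical
  induction P using MvPolynomial.induction_on' with
  | monomial u a =>
    have h1 : sb w (monomial u a) = monomial u (w ^ (u 1 + u 2) * a) := by
      rw [sb, aeval_monomial, monomial_eq, Finsupp.prod_fintype _ _ (by intro i; simp),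
        Finsupp.prod_fintype _ _ (by intro i; simp), Fin.prod_univ_three, Fin.prod_univ_three]
      simp only [Matrix.cons_val_zero, Matrix.cons_val_one, Matrix.cons_val, mul_pow, map_mul,
        map_pow, algebraMap_eq, pow_add]
      ring
    rw [h1, coeff_monomial, coeff_monomial]
    split_ifs with h
    · rw [h]
    · ring
  | add p q hp hq => rw [map_add, coeff_add, coeff_add, hp, hq]; ring

theorem sb_hom (w : O) {P : MvPolynomial (Fin 3) O} {m : ℕ} (hP : P.IsHomogeneous m) :
    (sb w P).IsHomogeneous m := by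
  intro d hd
  rw [coeff_sb] at hd
  exact hP (right_ne_zero_of_mul hd)

theorem sb_sb (v w : O) (P : MvPolynomial (Fin 3) O) : sb v (sb w P) = sb (v * w) P := by
  ext d
  rw [coeff_sb, coeff_sb, coeff_sb, mul_pow]; ring

theorem sb_inj [IsDomain O] {w : O} (hw : w ≠ 0) {P : MvPolynomial (Fin 3) O} (h : sb w P = 0) :
    P = 0 := by
  ext d
  have h1 := congrArg (coeff d) h
  rw [coeff_sb, coeff_zero] at h1
  rw [coeff_zero]
  exact (mul_eq_zero.1 h1).resolve_left (pow_ne_zero _ hw)

theorem sb_bind (w : O) (F : Fin 3 → MvPolynomial (Fin 3) O) (P : MvPolynomial (Fin 3) O) :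
    sb w (bind₁ F P) = bind₁ (fun i => sb w (F i)) P := by
  have h : (sb w).comp (bind₁ F) = bind₁ (fun i => sb w (F i)) := by
    apply MvPolynomial.algHom_ext
    intro i
    simp
  exact congrArg (fun g => g P) h

/-- a factor of a form with nonzero constant multiple is a form -/
theorem hom_of_C_mul [IsDomain O] {c : O} (hc : c ≠ 0) {P : MvPolynomial (Fin 3) O} {m : ℕ}
    (h : (C c * P).IsHomogeneous m) : P.IsHomogeneous m := by
  intro d hd
  apply h
  rw [coeff_C_mul]
  exact mul_ne_zero hc hd

end sbs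

end Pool.DynLehmerFam
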