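import Pool.Agent.Lib.MP_2194ec_nt.Fam.Defs

set_option autoImplicit false

/-!
# Lowest parts at the vertex
-/

namespace Pool.DynLehmerFam

open MvPolynomial

section theta

variable (k : Type) [CommRing k]

/-- `G ↦ G (1, T y, T z)` -/
noncomputable def th : MvPolynomial (Fin 3) k →ₐ[k] Polynomial (MvPolynomial (Fin 2) k) :=
  aeval ![1, Polynomial.X * Polynomial.C (X 0), Polynomial.X * Polynomial.C (X 1)]

variable {k}

theorem th_monomial (d : Fin 3 →₀ ℕ) (c : k) :
    th k (monomial d c) = Polynomial.monomial (d 1 + d 2) (monomial (Finsupp.tail d) c) := by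
  rw [th, aeval_monomial, monomial_eq (s := Finsupp.tail d),
    Finsupp.prod_fintype _ _ (by intro i; simp),
    Finsupp.prod_fintype _ _ (by intro i; simp), Fin.prod_univ_three, Fin.prod_univ_two]
  have h1 : (algebraMap k (Polynomial (MvPolynomial (Fin 2) k))) c = Polynomial.C (C c) := by
    rfl
  rw [h1, ← Polynomial.C_mul_X_pow_eq_monomial]
  simp only [Matrix.cons_val_zero, Matrix.cons_val_one, Matrix.cons_val, one_pow, mul_pow,
    Polynomial.C_mul, Polynomial.C_pow, Finsupp.tail_apply, pow_add]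
  have e0 : (Fin.succ 0 : Fin 3) = 1 := rfl
  have e1 : (Fin.succ 1 : Fin 3) = 2 := rfl
  rw [e0, e1]
  ring

/-- coefficients of `th G` for a form `G` -/
theorem th_coeff {G : MvPolynomial (Fin 3) k} {m : ℕ} (hG : G.IsHomogeneous m) (d : Fin 3 →₀ ℕ)
    (hd : d 0 + d 1 + d 2 = m) :
    coeff (Finsupp.tail d) ((th k G).coeff (d 1 + d 2)) = coeff d G := by
  classical
  conv_lhs => rw [G.as_sum]
  rw [map_sum, Polynomial.finsetSum_coeff, coeff_sum]
  have h1 : ∀ d' ∈ G.support, coeff (Finsupp.tail d)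
      ((th k (monomial d' (coeff d' G))).coeff (d 1 + d 2)) =
      if d' = d then coeff d G else 0 := by
    intro d' hd'
    rw [th_monomial, Polynomial.coeff_monomial]
    by_cases h : d' = d
    · subst h
      simp
    · rw [if_neg h]
      split_ifs with h2
      · rw [coeff_monomial, if_neg]
        intro h3
        apply h
        have h4 : d' 0 + d' 1 + d' 2 = m := by
          have := hG (mem_support_iff.1 hd')
          rw [← this, Finsupp.weight_apply, Finsupp.sum_fintype _ _ (by simp),
            Fin.sum_univ_three]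
          simp
        ext i
        refine Fin.cases ?_ (fun j => ?_) i
        · omega
        · have := DFunLike.congr_fun h3 j
          simpa [Finsupp.tail_apply] using this
      · rw [coeff_zero]
  rw [Finset.sum_congr rfl h1, Finset.sum_ite_eq']
  split_ifs with h
  · rfl
  · exact (notMem_support_iff.1 h).symm

theorem sum_of_hom {G : MvPolynomial (Fin 3) k} {m : ℕ} (hG : G.IsHomogeneous m) {d : Fin 3 →₀ ℕ}
    (hd : coeff d G ≠ 0) : d 0 + d 1 + d 2 = m := by
  have := hG hd
  rw [← this, Finsupp.weight_apply, Finsupp.sum_fintype _ _ (by simp), Fin.sum_univ_three]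
  simp

theorem th_inj {G : MvPolynomial (Fin 3) k} {m : ℕ} (hG : G.IsHomogeneous m) (h : th k G = 0) :
    G = 0 := by
  ext d
  rw [coeff_zero]
  by_contra hd
  have h1 := th_coeff hG d (sum_of_hom hG hd)
  rw [h] at h1
  simp only [Polynomial.coeff_zero, coeff_zero] at h1
  exact hd h1.symm

/-- coefficient of a form in terms of `th`, other direction -/
theorem exists_of_th {G : MvPolynomial (Fin 3) k} {m : ℕ} (hG : G.IsHomogeneous m) {j : ℕ}
    {e : Fin 2 →₀ ℕ} (h : coeff e ((th k G).coeff j) ≠ 0) :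
    ∃ d : Fin 3 →₀ ℕ, d 0 + d 1 + d 2 = m ∧ d 1 + d 2 = j ∧ Finsupp.tail d = e ∧
      coeff d G = coeff e ((th k G).coeff j) := by
  classical
  have h0 := h
  rw [G.as_sum] at h
  rw [map_sum, Polynomial.finsetSum_coeff, coeff_sum] at h
  obtain ⟨d, hd, hd'⟩ := Finset.exists_ne_zero_of_sum_ne_zero h
  rw [th_monomial, Polynomial.coeff_monomial] at hd'
  split_ifs at hd' with h2
  · rw [coeff_monomial] at hd'
    split_ifs at hd' with h3
    · have h4 := sum_of_hom hG (mem_support_iff.1 hd)
      refine ⟨d, h4, h2, h3, ?_⟩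
      rw [← th_coeff hG d h4, h2, h3]
    · exact absurd rfl hd'
  · rw [coeff_zero] at hd'; exact absurd rfl hd'

/-- `th G = T ^ a (t + T ...)`, `t ≠ 0` -/
def Low (G : MvPolynomial (Fin 3) k) (a : ℕ) (t : MvPolynomial (Fin 2) k) : Prop :=
  ∃ g : Polynomial (MvPolynomial (Fin 2) k), th k G = Polynomial.X ^ a * g ∧ g.coeff 0 = t ∧ t ≠ 0

theorem Low.ne {G : MvPolynomial (Fin 3) k} {a : ℕ} {t : MvPolynomial (Fin 2) k} (h : Low G a t) :
    t ≠ 0 := by
  obtain ⟨g, h1, h2, h3⟩ := h
  exact h3

theorem Low.coeff_eq {G : MvPolynomial (Fin 3) k} {a : ℕ} {t : MvPolynomial (Fin 2) k}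
    (h : Low G a t) : (th k G).coeff a = t := by
  obtain ⟨g, h1, h2, h3⟩ := h
  rw [h1, Polynomial.coeff_X_pow_mul', if_pos le_rfl, Nat.sub_self, h2]

theorem Low.coeff_lt {G : MvPolynomial (Fin 3) k} {a j : ℕ} {t : MvPolynomial (Fin 2) k}
    (h : Low G a t) (hj : j < a) : (th k G).coeff j = 0 := by
  obtain ⟨g, h1, h2, h3⟩ := h
  rw [h1, Polynomial.coeff_X_pow_mul', if_neg (by omega)]

theorem Low.poly_ne {G : MvPolynomial (Fin 3) k} {a : ℕ} {t : MvPolynomial (Fin 2) k}
    (h : Low G a t) : G ≠ 0 := by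
  rintro rfl
  have h1 := h.coeff_eq
  rw [map_zero, Polynomial.coeff_zero] at h1
  exact h.ne h1.symm

theorem Low.unique {G : MvPolynomial (Fin 3) k} {a b : ℕ} {t s : MvPolynomial (Fin 2) k}
    (h : Low G a t) (h' : Low G b s) : a = b ∧ t = s := by
  have h1 : a = b := by
    rcases Nat.lt_trichotomy a b with h1 | h1 | h1
    · have := h'.coeff_lt h1
      rw [h.coeff_eq] at this
      exact absurd this h.ne
    · exact h1
    · have := h.coeff_lt h1
      rw [h'.coeff_eq] at this
      exact absurd this h'.ne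
  subst h1
  exact ⟨rfl, by rw [← h.coeff_eq, h'.coeff_eq]⟩

theorem exists_low {G : MvPolynomial (Fin 3) k} {m : ℕ} (hG : G.IsHomogeneous m) (h0 : G ≠ 0) :
    ∃ a t, Low G a t := by
  have h1 : th k G ≠ 0 := fun h => h0 (th_inj hG h)
  refine ⟨(th k G).natTrailingDegree, (th k G).trailingCoeff, ?_⟩
  obtain ⟨g, hg⟩ := Polynomial.X_pow_dvd_iff.2
    (fun d hd => Polynomial.coeff_eq_zero_of_lt_natTrailingDegree (p := th k G) hd)
  refine ⟨g, hg, ?_, ?_⟩
  · rw [Polynomial.trailingCoeff]
    conv_rhs => rw [hg]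
    rw [Polynomial.coeff_X_pow_mul', if_pos]
    · congr 1
      rw [← hg, Nat.sub_self]
    · rw [← hg]
  · rwa [Ne, Polynomial.trailingCoeff_eq_zero]

theorem Low.mul [IsDomain k] {A B : MvPolynomial (Fin 3) k} {a b : ℕ}
    {t s : MvPolynomial (Fin 2) k} (hA : Low A a t) (hB : Low B b s) :
    Low (A * B) (a + b) (t * s) := by
  obtain ⟨g, h1, h2, h3⟩ := hA
  obtain ⟨g', h1', h2', h3'⟩ := hB
  refine ⟨g * g', ?_, ?_, mul_ne_zero h3 h3'⟩
  · rw [map_mul, h1, h1', pow_add]; ring
  · rw [Polynomial.mul_coeff_zero, h2, h2']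

theorem Low.C_mul [IsDomain k] {A : MvPolynomial (Fin 3) k} {a : ℕ}
    {t : MvPolynomial (Fin 2) k} (hA : Low A a t) {c : k} (hc : c ≠ 0) :
    Low (C c * A) a (C c * t) := by
  obtain ⟨g, h1, h2, h3⟩ := hA
  refine ⟨Polynomial.C (C c) * g, ?_, ?_, mul_ne_zero (by rwa [Ne, C_eq_zero]) h3⟩
  · rw [map_mul, h1]
    have : th k (C c) = Polynomial.C (C c) := by
      rw [th, ← algebraMap_eq, AlgHom.commutes]; rfl
    rw [this]; ring
  · rw [Polynomial.mul_coeff_zero, h2, Polynomial.coeff_C_zero]

/-- the value at the vertex is the coefficient of `T ^ 0` -/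
theorem th_coeff_zero (A : MvPolynomial (Fin 3) k) :
    (th k A).coeff 0 = C (eval (Pi.single 0 1) A) := by
  have h1 : ((Polynomial.evalRingHom (0 : MvPolynomial (Fin 2) k)).comp (th k).toRingHom) =
      (C : k →+* MvPolynomial (Fin 2) k).comp (eval (Pi.single (0 : Fin 3) (1 : k))) := by
    apply MvPolynomial.ringHom_ext
    · intro r
      simp only [AlgHom.toRingHom_eq_coe, RingHom.coe_comp, RingHom.coe_coe, Function.comp_apply,
        eval_C, Polynomial.coe_evalRingHom]
      rw [← algebraMap_eq, AlgHom.commutes]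
      simp [Polynomial.algebraMap_apply]
    · intro i
      fin_cases i <;> simp [th]
  have h2 := RingHom.congr_fun h1 A
  rw [Polynomial.coeff_zero_eq_eval_zero]
  exact h2

theorem low_of_eval {A : MvPolynomial (Fin 3) k} (h : eval (Pi.single 0 1) A ≠ 0) :
    Low A 0 (C (eval (Pi.single 0 1) A)) :=
  ⟨th k A, by rw [pow_zero, one_mul], th_coeff_zero A, by rwa [Ne, C_eq_zero]⟩

theorem eval_of_low {A : MvPolynomial (Fin 3) k} {t : MvPolynomial (Fin 2) k} (h : Low A 0 t) :
    eval (Pi.single 0 1) A ≠ 0 ∧ t = C (eval (Pi.single 0 1) A) := by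
  have h1 := h.coeff_eq
  rw [th_coeff_zero] at h1
  refine ⟨?_, h1.symm⟩
  intro h2
  rw [h2, C_0] at h1
  exact h.ne h1.symm

/-- lowest part of `A (x ^ q, y ^ q, z ^ q)` -/
theorem Low.expand [IsDomain k] {A : MvPolynomial (Fin 3) k} {a : ℕ}
    {t : MvPolynomial (Fin 2) k} (hA : Low A a t) {q : ℕ} (hq : 0 < q) :
    Low (MvPolynomial.expand q A) (q * a) (MvPolynomial.expand q t) := by
  obtain ⟨g, h1, h2, h3⟩ := hA
  let Ψ : Polynomial (MvPolynomial (Fin 2) k) →+* Polynomial (MvPolynomial (Fin 2) k) :=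
    Polynomial.eval₂RingHom (Polynomial.C.comp (MvPolynomial.expand q).toRingHom)
      (Polynomial.X ^ q)
  have hΨ : Ψ.comp (th k).toRingHom = (th k).toRingHom.comp (MvPolynomial.expand q).toRingHom := by
    apply MvPolynomial.ringHom_ext
    · intro r
      simp only [AlgHom.toRingHom_eq_coe, RingHom.coe_comp, RingHom.coe_coe, Function.comp_apply]
      rw [← algebraMap_eq, AlgHom.commutes, AlgHom.commutes, AlgHom.commutes]
      simp [Ψ, Polynomial.algebraMap_apply]
    · intro i
      fin_cases i <;> simp [Ψ, th, mul_pow]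
  have h4 := RingHom.congr_fun hΨ A
  simp only [AlgHom.toRingHom_eq_coe, RingHom.coe_comp, RingHom.coe_coe,
    Function.comp_apply] at h4
  refine ⟨Ψ g, ?_, ?_, ?_⟩
  · rw [← h4, h1, map_mul, map_pow]
    congr 1
    simp [Ψ, pow_mul]
  · rw [← h2]
    have h5 : (Polynomial.evalRingHom (0 : MvPolynomial (Fin 2) k)).comp Ψ =
        (MvPolynomial.expand q).toRingHom.comp
          (Polynomial.evalRingHom (0 : MvPolynomial (Fin 2) k)) := by
      apply Polynomial.ringHom_ext
      · intro r; simp [Ψ]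
      · simp [Ψ, hq.ne']
    have h6 := RingHom.congr_fun h5 g
    simp only [AlgHom.toRingHom_eq_coe, RingHom.coe_comp, RingHom.coe_coe,
      Function.comp_apply, Polynomial.coe_evalRingHom] at h6
    rw [Polynomial.coeff_zero_eq_eval_zero, h6, ← Polynomial.coeff_zero_eq_eval_zero]
  · intro h
    apply h3
    exact (MvPolynomial.expand_injective hq) (by rw [h, map_zero])

end theta

section YZ

variable {k : Type} [Field k]

/-- the linear substitution `t ↦ t ∘ M` -/
noncomputable def lin (M : Matrix (Fin 2) (Fin 2) k) :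
    MvPolynomial (Fin 2) k →ₐ[k] MvPolynomial (Fin 2) k :=
  aeval ![C (M 0 0) * X 0 + C (M 0 1) * X 1, C (M 1 0) * X 0 + C (M 1 1) * X 1]

theorem lin_adj (M : Matrix (Fin 2) (Fin 2) k) (t : MvPolynomial (Fin 2) k) :
    lin M (lin (Matrix.of ![![M 1 1, - M 0 1], ![- M 1 0, M 0 0]]) t) =
      aeval (fun i => C M.det * X i) t := by
  have h : (lin M).comp (lin (Matrix.of ![![M 1 1, - M 0 1], ![- M 1 0, M 0 0]])) =
      aeval (fun i => C M.det * X i) := by
    apply MvPolynomial.algHom_ext
    intro i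
    fin_cases i
    · simp [lin, Matrix.det_fin_two, algebraMap_eq]
      ring
    · simp [lin, Matrix.det_fin_two, algebraMap_eq]
      ring
  exact congrArg (fun g => g t) h

theorem lin_injective {M : Matrix (Fin 2) (Fin 2) k} (hM : M.det ≠ 0) :
    Function.Injective (lin M) := by
  set N : Matrix (Fin 2) (Fin 2) k := Matrix.of ![![M 1 1, - M 0 1], ![- M 1 0, M 0 0]] with hN
  have hND : N.det = M.det := by
    rw [Matrix.det_fin_two, Matrix.det_fin_two]; simp [hN]; ring
  have hadj : ∀ t, lin N (lin M t) = aeval (fun i => C M.det * X i) t := by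
    intro t
    have := lin_adj N t
    rw [hND] at this
    rw [← this]
    congr 2
    congr 1
    ext i j
    fin_cases i <;> fin_cases j <;> simp [hN]
  intro t s hts
  have h1 := hadj t
  rw [hts, hadj s] at h1
  have h2 : ∀ t : MvPolynomial (Fin 2) k,
      aeval (fun i => C M.det⁻¹ * X i) (aeval (fun i => C M.det * X i) t :
        MvPolynomial (Fin 2) k) = t := by
    intro t
    have h3 : (aeval (fun i => C M.det⁻¹ * X i) :
        MvPolynomial (Fin 2) k →ₐ[k] MvPolynomial (Fin 2) k).comp
        (aeval (fun i => C M.det * X i)) = AlgHom.id k _ := by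
      apply MvPolynomial.algHom_ext
      intro i
      simp only [AlgHom.comp_apply, aeval_X, map_mul, AlgHom.id_apply]
      rw [← algebraMap_eq, AlgHom.commutes, algebraMap_eq, ← mul_assoc, ← C_mul,
        mul_inv_cancel₀ hM, C_1, one_mul]
    exact congrArg (fun g => g t) h3
  rw [← h2 t, ← h2 s, h1]

/-- lowest part of `A (x ^ q, Y, Z)` -/
theorem Low.bind {q : ℕ} (hq : 2 ≤ q) {M : Matrix (Fin 2) (Fin 2) k} (hM : M.det ≠ 0)
    {A : MvPolynomial (Fin 3) k} {a : ℕ} {t : MvPolynomial (Fin 2) k} (hA : Low A a t) :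
    Low (bind₁ ![X 0 ^ q, YY q M, ZZ q M] A) a (lin M t) := by
  obtain ⟨g, h1, h2, h3⟩ := hA
  let α : Fin 2 → Polynomial (MvPolynomial (Fin 2) k) :=
    ![Polynomial.C (C (M 0 0) * X 0 + C (M 0 1) * X 1) +
        Polynomial.X ^ (q - 1) * Polynomial.C (X 0 ^ q),
      Polynomial.C (C (M 1 0) * X 0 + C (M 1 1) * X 1) +
        Polynomial.X ^ (q - 1) * Polynomial.C (X 1 ^ q)]
  let Ψ : Polynomial (MvPolynomial (Fin 2) k) →+* Polynomial (MvPolynomial (Fin 2) k) :=
    Polynomial.eval₂RingHom
      (aeval α : MvPolynomial (Fin 2) k →ₐ[k] Polynomial (MvPolynomial (Fin 2) k)).toRingHom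
      Polynomial.X
  have hqq : q - 1 + 1 = q := by omega
  have hC : ∀ r : k, th k (C r) = Polynomial.C (C r) := by
    intro r
    rw [← algebraMap_eq, AlgHom.commutes]; rfl
  have hX : ∀ p : Polynomial (MvPolynomial (Fin 2) k), Polynomial.X * (Polynomial.X ^ (q - 1) * p) =
      Polynomial.X ^ q * p := by
    intro p
    rw [← mul_assoc, ← pow_succ', hqq]
  have hΨ : Ψ.comp (th k).toRingHom =
      (th k).toRingHom.comp (bind₁ ![X 0 ^ q, YY q M, ZZ q M]).toRingHom := by
    apply MvPolynomial.ringHom_ext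
    · intro r
      simp only [AlgHom.toRingHom_eq_coe, RingHom.coe_comp, RingHom.coe_coe, Function.comp_apply,
        hC, bind₁_C_right]
      simp only [Ψ, Polynomial.coe_eval₂RingHom, Polynomial.eval₂_C, AlgHom.toRingHom_eq_coe,
        RingHom.coe_coe]
      rw [← algebraMap_eq, AlgHom.commutes]; rfl
    · intro i
      simp only [AlgHom.toRingHom_eq_coe, RingHom.coe_comp, RingHom.coe_coe, Function.comp_apply,
        bind₁_X_right]
      fin_cases i
      · simp [Ψ, th]
      · simp only [Fin.mk_one, Matrix.cons_val_one, Matrix.cons_val_zero, YY, map_add, map_mul,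
          map_pow, hC]
        simp only [th, aeval_X, Matrix.cons_val_one, Matrix.cons_val_zero, Matrix.cons_val,
          one_pow, one_mul, map_mul]
        simp only [Ψ, Polynomial.coe_eval₂RingHom, Polynomial.eval₂_C, Polynomial.eval₂_X,
          AlgHom.toRingHom_eq_coe, RingHom.coe_coe, aeval_X, α, Matrix.cons_val_zero, mul_add, hX,
          map_add, map_mul, map_pow, mul_pow]
        ring
      · simp only [Fin.reduceFinMk, Matrix.cons_val, ZZ, map_add, map_mul,
          map_pow, hC]
        simp only [th, aeval_X, Matrix.cons_val_one, Matrix.cons_val_zero, Matrix.cons_val,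
          one_pow, one_mul, map_mul]
        simp only [Ψ, Polynomial.coe_eval₂RingHom, Polynomial.eval₂_C, Polynomial.eval₂_X,
          AlgHom.toRingHom_eq_coe, RingHom.coe_coe, aeval_X, α, Matrix.cons_val_one,
          Matrix.cons_val_zero, mul_add, hX,
          map_add, map_mul, map_pow, mul_pow]
        ring
  have h4 := RingHom.congr_fun hΨ A
  simp only [AlgHom.toRingHom_eq_coe, RingHom.coe_comp, RingHom.coe_coe,
    Function.comp_apply] at h4
  refine ⟨Ψ g, ?_, ?_, ?_⟩
  · rw [← h4, h1, map_mul, map_pow]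
    congr 1
    simp [Ψ]
  · rw [← h2]
    have h5 : (Polynomial.evalRingHom (0 : MvPolynomial (Fin 2) k)).comp Ψ =
        (lin M).toRingHom.comp
          (Polynomial.evalRingHom (0 : MvPolynomial (Fin 2) k)) := by
      apply Polynomial.ringHom_ext
      · intro r
        have h6 : ((Polynomial.evalRingHom (0 : MvPolynomial (Fin 2) k)).comp
            (aeval α : MvPolynomial (Fin 2) k →ₐ[k] Polynomial (MvPolynomial (Fin 2) k)).toRingHom) =
            (lin M).toRingHom := by
          apply MvPolynomial.ringHom_ext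
          · intro r
            simp only [AlgHom.toRingHom_eq_coe, RingHom.coe_comp, RingHom.coe_coe,
              Function.comp_apply]
            rw [← algebraMap_eq, AlgHom.commutes, AlgHom.commutes]
            simp [Polynomial.algebraMap_apply]
          · intro i
            have hq1 : q - 1 ≠ 0 := by omega
            fin_cases i <;> simp [α, lin, hq1]
        have h7 := RingHom.congr_fun h6 r
        simp only [AlgHom.toRingHom_eq_coe, RingHom.coe_comp, RingHom.coe_coe,
          Function.comp_apply, Polynomial.coe_evalRingHom] at h7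
        simp only [Ψ, AlgHom.toRingHom_eq_coe, RingHom.coe_comp, RingHom.coe_coe,
          Function.comp_apply, Polynomial.coe_evalRingHom, Polynomial.coe_eval₂RingHom,
          Polynomial.eval₂_C, Polynomial.eval_C]
        exact h7
      · simp [Ψ]
    have h6 := RingHom.congr_fun h5 g
    simp only [AlgHom.toRingHom_eq_coe, RingHom.coe_comp, RingHom.coe_coe,
      Function.comp_apply, Polynomial.coe_evalRingHom] at h6
    rw [Polynomial.coeff_zero_eq_eval_zero, h6, ← Polynomial.coeff_zero_eq_eval_zero]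
  · intro h
    apply h3
    exact lin_injective hM (by rw [h, map_zero])

end YZ

end Pool.DynLehmerFam
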