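import Pool.Agent.Lib.MP_2194ec_nt.Fam.Prim
import Pool.Agent.Lib.MP_2194ec_nt.Fam.Theta

set_option autoImplicit false

/-!
# The structure at the vertex (steps S2, S3, S4)
-/

namespace Pool.DynLehmerFam

open MvPolynomial IsLocalRing

section red

variable {O : Type} [CommRing O] [IsLocalRing O]

theorem rd_bind (F : Fin 3 → MvPolynomial (Fin 3) O) (P : MvPolynomial (Fin 3) O) :
    rd O (bind₁ F P) = bind₁ (fun i => rd O (F i)) (rd O P) := by
  rw [rd, MvPolynomial.map_bind₁]

theorem rd_bind_F {q : ℕ} {F : Fin 3 → MvPolynomial (Fin 3) O} (hF : ∀ i, rd O (F i) = X i ^ q)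
    (P : MvPolynomial (Fin 3) O) : rd O (bind₁ F P) = expand q (rd O P) := by
  rw [rd_bind]
  have h : (fun i => rd O (F i)) = fun i => (X i : MvPolynomial (Fin 3) (ResidueField O)) ^ q :=
    funext hF
  rw [h]
  rfl

theorem rd_hom {P : MvPolynomial (Fin 3) O} {m : ℕ} (hP : P.IsHomogeneous m) :
    (rd O P).IsHomogeneous m := hP.map _

end red

section main

variable {O : Type} [CommRing O] [IsDomain O] [ValuationRing O] {K : Type} [Field K] [Algebra O K]
  [IsFractionRing O K] {q : ℕ} {w : O} {F F' : Fin 3 → MvPolynomial (Fin 3) O}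
  {M : Matrix (Fin 2) (Fin 2) (ResidueField O)} {n : ℕ} {H h : ℕ → MvPolynomial (Fin 3) O}
  {m e : ℕ → ℕ}

theorem rdF' (V : VData q w F F' M) :
    (fun i => rd O (F' i)) = ![X 0 ^ q, YY q M, ZZ q M] := by
  funext i
  fin_cases i
  · exact V.r0
  · exact V.r1
  · exact V.r2

theorem sb_bind_F (V : VData q w F F' M) (P : MvPolynomial (Fin 3) O) :
    sb w (bind₁ F P) = bind₁ F' (sb (w ^ q) P) := by
  rw [sb_bind]
  have h1 : (bind₁ F').comp (sb (w ^ q)) = bind₁ (fun i => sb w (F i)) := by
    apply MvPolynomial.algHom_ext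
    intro i
    rw [AlgHom.comp_apply, bind₁_X_right]
    fin_cases i
    · show bind₁ F' (sb (w ^ q) (X 0)) = sb w (F 0)
      rw [V.s0]
      simp [sb]
    · show bind₁ F' (sb (w ^ q) (X 1)) = sb w (F 1)
      rw [V.s1]
      simp [sb]
    · show bind₁ F' (sb (w ^ q) (X 2)) = sb w (F 2)
      rw [V.s2]
      simp [sb]
  rw [← h1]
  rfl

/-- degree bound for the reduction of `K`, and comparison of the parts of degree `a` -/
theorem scale_part {v d : O} (hv : residue O v = 0) (hd : d ≠ 0)
    {G K : MvPolynomial (Fin 3) O} {m : ℕ} (hG : G.IsHomogeneous m)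
    (h : sb v G = C d * K) {a : ℕ} {t : MvPolynomial (Fin 2) (ResidueField O)}
    (hL : Low (rd O G) a t) :
    ∃ ε : O, v ^ a = d * ε ∧ (∀ j, a < j → (th _ (rd O K)).coeff j = 0) ∧
      (th _ (rd O K)).coeff a = C (residue O ε) * t := by
  have hK : K.IsHomogeneous m := hom_of_C_mul hd (by rw [← h]; exact sb_hom v hG)
  have hco : ∀ e, v ^ (e 1 + e 2) * coeff e G = d * coeff e K := by
    intro e
    rw [← coeff_sb, h, coeff_C_mul]
  -- a monomial of lowest degree
  have ht := hL.ne
  obtain ⟨e, he⟩ : ∃ e, coeff e t ≠ 0 := by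
    by_contra hcon
    push Not at hcon
    exact ht (by ext e; rw [hcon e, coeff_zero])
  rw [← hL.coeff_eq] at he
  obtain ⟨dd, h1, h2, h3, h4⟩ := exists_of_th (rd_hom hG) he
  rw [← h4, coeff_map] at he
  have hu : IsUnit (coeff dd G) := residue_ne_zero.1 he
  obtain ⟨ε, hε⟩ : d ∣ v ^ a := by
    have h5 := hco dd
    rw [h2] at h5
    have h6 : d ∣ v ^ a * coeff dd G := ⟨_, h5⟩
    exact hu.dvd_mul_right.1 h6
  refine ⟨ε, hε, ?_, ?_⟩
  · intro j hj
    ext e
    rw [coeff_zero]
    by_contra hne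
    obtain ⟨dd, h1, h2, h3, h4⟩ := exists_of_th (rd_hom hK) hne
    rw [← h4, coeff_map] at hne
    apply hne
    have h5 := hco dd
    rw [h2] at h5
    have h6 : v ^ j = v ^ a * (v * v ^ (j - a - 1)) := by
      rw [← pow_succ', ← pow_add]
      congr 1
      omega
    rw [h6, hε] at h5
    have h7 : coeff dd K = v * (ε * v ^ (j - a - 1) * coeff dd G) := by
      apply mul_left_cancel₀ hd
      rw [← h5]; ring
    rw [h7, map_mul, hv, zero_mul]
  · ext e
    by_cases hne : coeff e ((th _ (rd O K)).coeff a) ≠ 0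
    · obtain ⟨dd, h1, h2, h3, h4⟩ := exists_of_th (rd_hom hK) hne
      have h5 := hco dd
      rw [h2, hε] at h5
      have h7 : coeff dd K = ε * coeff dd G := by
        apply mul_left_cancel₀ hd
        rw [← h5]; ring
      rw [← h4, coeff_map, h7, map_mul, coeff_C_mul, ← hL.coeff_eq]
      congr 1
      have h8 := th_coeff (rd_hom hG) dd h1
      rw [h2, h3, coeff_map] at h8
      exact h8.symm
    · rw [not_not] at hne
      rw [hne, coeff_C_mul]
      symm
      by_contra hne2
      have h9 := right_ne_zero_of_mul hne2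
      rw [← hL.coeff_eq] at h9
      obtain ⟨dd, h1, h2, h3, h4⟩ := exists_of_th (rd_hom hG) h9
      have h5 := hco dd
      rw [h2, hε] at h5
      have h7 : coeff dd K = ε * coeff dd G := by
        apply mul_left_cancel₀ hd
        rw [← h5]; ring
      apply hne2
      rw [← hL.coeff_eq, ← h4, coeff_map, ← map_mul, ← h7, ← coeff_map,
        ← th_coeff (rd_hom hK) dd h1, h2, h3]
      exact hne

/-- a monotone periodic sequence is constant -/
theorem const_of_mono {a : ℕ → ℕ} (hn : 0 < n) (hper : ∀ i, a (i + n) = a i)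
    (hmono : ∀ i, a i ≤ a (i + 1)) : ∀ i, a (i + 1) = a i := by
  intro i
  have h1 : ∀ j, a (i + 1) ≤ a (i + 1 + j) := by
    intro j
    induction j with
    | zero => exact le_rfl
    | succ j ih => exact ih.trans (hmono _)
  have h2 := h1 (n - 1)
  have h3 : i + 1 + (n - 1) = i + n := by omega
  rw [h3, hper] at h2
  exact le_antisymm h2 (hmono i)

/-- the result of steps S2, S3, S4 -/
structure Local (K : Type) [Field K] [Algebra O K] (F' : Fin 3 → MvPolynomial (Fin 3) O)
    (M : Matrix (Fin 2) (Fin 2) (ResidueField O)) (m e : ℕ → ℕ)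
    (g Kf : ℕ → MvPolynomial (Fin 3) O) (a : ℕ)
    (T : ℕ → MvPolynomial (Fin 2) (ResidueField O)) : Prop where
  apos : 0 < a
  hg : ∀ i, (g i).IsHomogeneous (e i)
  hK : ∀ i, (Kf i).IsHomogeneous (m i)
  rg : ∀ i, eval (Pi.single 0 1) (rd O (g i)) ≠ 0
  rK : ∀ i, rd O (Kf i) ≠ 0
  irrK : ∀ i, Irreducible (MvPolynomial.map (algebraMap O K) (Kf i))
  dvd : ∀ i, g i ∣ bind₁ F' (Kf (i + 1))
  Tne : ∀ i, T i ≠ 0
  Kth : ∀ i, ∃ c : ResidueField O, c ≠ 0 ∧
    th _ (rd O (Kf (i + 1))) = Polynomial.X ^ a * Polynomial.C (C c * T (i + 1))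
  Tlin : ∀ i, ∃ c : ResidueField O, c ≠ 0 ∧ lin M (T (i + 1)) = C c * T i

omit [IsDomain O] [ValuationRing O] in
/-- invertible scaling over the fraction field preserves irreducibility -/
theorem irr_sb {v : O} (hv : v ≠ 0) {G : MvPolynomial (Fin 3) O}
    (hG : Irreducible (MvPolynomial.map (algebraMap O K) G)) :
    Irreducible (MvPolynomial.map (algebraMap O K) (sb v G)) := by
  have hv' : algebraMap O K v ≠ 0 := by
    rw [Ne, map_eq_zero_iff _ (IsFractionRing.injective O K)]
    exact hv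
  have h1 : MvPolynomial.map (algebraMap O K) (sb v G) =
      sb (algebraMap O K v) (MvPolynomial.map (algebraMap O K) G) := by
    ext d
    rw [coeff_map, coeff_sb, coeff_sb, coeff_map, map_mul, map_pow]
  rw [h1]
  let E : MvPolynomial (Fin 3) K ≃ₐ[K] MvPolynomial (Fin 3) K :=
    AlgEquiv.ofAlgHom (sb (algebraMap O K v)) (sb (algebraMap O K v)⁻¹)
      (by
        apply AlgHom.ext
        intro P
        rw [AlgHom.comp_apply, sb_sb, mul_inv_cancel₀ hv', AlgHom.id_apply]
        ext d
        rw [coeff_sb, one_pow, one_mul])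
      (by
        apply AlgHom.ext
        intro P
        rw [AlgHom.comp_apply, sb_sb, inv_mul_cancel₀ hv', AlgHom.id_apply]
        ext d
        rw [coeff_sb, one_pow, one_mul])
  have h2 : E (MvPolynomial.map (algebraMap O K) G) =
      sb (algebraMap O K v) (MvPolynomial.map (algebraMap O K) G) := rfl
  rw [← h2]
  exact (MulEquiv.irreducible_iff E.toMulEquiv).mpr hG

omit [IsDomain O] [ValuationRing O] in
theorem irr_of_C_mul {c : O} (hc : c ≠ 0) {G : MvPolynomial (Fin 3) O}
    (hG : Irreducible (MvPolynomial.map (algebraMap O K) (C c * G))) :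
    Irreducible (MvPolynomial.map (algebraMap O K) G) := by
  rw [map_mul, map_C] at hG
  have hc' : IsUnit (C (algebraMap O K c) : MvPolynomial (Fin 3) K) := by
    apply IsUnit.map
    rw [isUnit_iff_ne_zero, Ne, map_eq_zero_iff _ (IsFractionRing.injective O K)]
    exact hc
  exact (irreducible_isUnit_mul hc').1 hG

theorem local_exists (hq : 2 ≤ q) (V : VData q w F F' M) (Y : Cycle K F n H h m e)
    (h0 : eval (Pi.single 0 1) (rd O (H 0)) = 0) :
    ∃ (g Kf : ℕ → MvPolynomial (Fin 3) O) (a : ℕ)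
      (T : ℕ → MvPolynomial (Fin 2) (ResidueField O)), Local K F' M m e g Kf a T := by
  have hw0 := V.w0
  set v : O := w ^ (q - 1) with hv
  have hv0 : v ≠ 0 := pow_ne_zero _ hw0
  have hvr : residue O v = 0 := by
    rw [hv, map_pow, V.wm, zero_pow (by omega)]
  choose! con prim hcon using fun (G : MvPolynomial (Fin 3) O) (hG : G ≠ 0) => exists_prim G hG
  have hne : ∀ {P : MvPolynomial (Fin 3) O}, rd O P ≠ 0 → P ≠ 0 := by
    rintro P hP rfl
    exact hP (map_zero _)
  have hsbne : ∀ {u : O} {P : MvPolynomial (Fin 3) O}, u ≠ 0 → P ≠ 0 → sb u P ≠ 0 :=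
    fun hu hP h => hP (sb_inj hu h)
  -- the data
  set G : ℕ → MvPolynomial (Fin 3) O := fun i => prim (sb w (H i)) with hGdef
  set c : ℕ → O := fun i => con (sb w (H i)) with hcdef
  set g : ℕ → MvPolynomial (Fin 3) O := fun i => prim (sb w (h i)) with hgdef
  set c' : ℕ → O := fun i => con (sb w (h i)) with hc'def
  set Kf : ℕ → MvPolynomial (Fin 3) O := fun i => prim (sb v (G i)) with hKdef
  set d : ℕ → O := fun i => con (sb v (G i)) with hddef
  have hH0 : ∀ i, sb w (H i) ≠ 0 := fun i => hsbne hw0 (hne (Y.rH i))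
  have hh0 : ∀ i, sb w (h i) ≠ 0 := fun i => hsbne hw0 (hne (Y.rh i))
  have G1 : ∀ i, c i ≠ 0 ∧ sb w (H i) = C (c i) * G i ∧ rd O (G i) ≠ 0 := fun i => hcon _ (hH0 i)
  have g1 : ∀ i, c' i ≠ 0 ∧ sb w (h i) = C (c' i) * g i ∧ rd O (g i) ≠ 0 :=
    fun i => hcon _ (hh0 i)
  have K1 : ∀ i, d i ≠ 0 ∧ sb v (G i) = C (d i) * Kf i ∧ rd O (Kf i) ≠ 0 :=
    fun i => hcon _ (hsbne hv0 (hne (G1 i).2.2))
  have hGh : ∀ i, (G i).IsHomogeneous (m i) := fun i =>
    hom_of_C_mul (G1 i).1 (by rw [← (G1 i).2.1]; exact sb_hom w (Y.hH i))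
  have hgh : ∀ i, (g i).IsHomogeneous (e i) := fun i =>
    hom_of_C_mul (g1 i).1 (by rw [← (g1 i).2.1]; exact sb_hom w (Y.hh i))
  have hKh : ∀ i, (Kf i).IsHomogeneous (m i) := fun i =>
    hom_of_C_mul (K1 i).1 (by rw [← (K1 i).2.1]; exact sb_hom v (hGh i))
  have hGper : ∀ i, G (i + n) = G i := fun i => by simp only [hGdef, Y.per i]
  have hcper : ∀ i, c (i + n) = c i := fun i => by simp only [hcdef, Y.per i]
  -- lowest parts
  have hLG : ∀ i, ∃ a t, Low (rd O (G i)) a t := fun i => exists_low (rd_hom (hGh i)) (G1 i).2.2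
  have hLg : ∀ i, ∃ a t, Low (rd O (g i)) a t := fun i => exists_low (rd_hom (hgh i)) (g1 i).2.2
  have hLK : ∀ i, ∃ a t, Low (rd O (Kf i)) a t := fun i => exists_low (rd_hom (hKh i)) (K1 i).2.2
  choose a T hT using hLG
  choose b S hS using hLg
  choose j t ht using hLK
  -- the fundamental identity
  have hid : ∀ i, C (c (i + 1) * d (i + 1)) * bind₁ F' (Kf (i + 1)) =
      C (c i * c' i) * (G i * g i) := by
    intro i
    have h1 := congrArg (sb w) (Y.mul i)
    rw [sb_bind_F V, map_mul, (G1 i).2.1, (g1 i).2.1] at h1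
    have h2 : w ^ q = v * w := by
      rw [hv, ← pow_succ]; congr 1; omega
    rw [h2, ← sb_sb, (G1 (i + 1)).2.1, map_mul, (K1 (i + 1)).2.1] at h1
    have h3 : sb v (C (c (i + 1))) = C (c (i + 1)) := by
      rw [← algebraMap_eq, AlgHom.commutes]
    rw [h3, map_mul, map_mul, bind₁_C_right, bind₁_C_right] at h1
    rw [C_mul, C_mul]
    rw [mul_assoc, h1]
    ring
  have hLb : ∀ i, Low (rd O (bind₁ F' (Kf (i + 1)))) (j (i + 1)) (lin M (t (i + 1))) := by
    intro i
    rw [rd_bind, rdF' V]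
    exact Low.bind hq V.det (ht (i + 1))
  have hGg : ∀ i, rd O (G i * g i) ≠ 0 := fun i => by
    rw [map_mul]; exact mul_ne_zero (G1 i).2.2 (g1 i).2.2
  have hun : ∀ i, ∃ u : O, IsUnit u ∧ c i * c' i = c (i + 1) * d (i + 1) * u ∧
      bind₁ F' (Kf (i + 1)) = C u * (G i * g i) := fun i =>
    unit_of_prim (mul_ne_zero (G1 _).1 (K1 _).1) (mul_ne_zero (G1 _).1 (g1 _).1)
      (hLb i).poly_ne (hGg i) (hid i)
  have hlow : ∀ i, j (i + 1) = a i + b i ∧ ∃ u : ResidueField O, u ≠ 0 ∧
      lin M (t (i + 1)) = C u * (T i * S i) := by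
    intro i
    obtain ⟨u, hu, _, h2⟩ := hun i
    have h3 := hLb i
    rw [h2, map_mul, map_C, map_mul] at h3
    have hu' : residue O u ≠ 0 := residue_ne_zero.2 hu
    have h4 := ((hT i).mul (hS i)).C_mul hu'
    have h5 := h3.unique h4
    exact ⟨h5.1, _, hu', h5.2⟩
  -- degree bound
  have hsc := fun i => scale_part hvr (K1 i).1 (hGh i) (K1 i).2.1 (hT i)
  choose ε hε1 hε2 hε3 using hsc
  have hja : ∀ i, j i ≤ a i := by
    intro i
    by_contra hlt
    push Not at hlt
    have h1 := hε2 i _ hlt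
    rw [(ht i).coeff_eq] at h1
    exact (ht i).ne h1
  have haper : ∀ i, a (i + n) = a i := by
    intro i
    have h1 := hT (i + n)
    rw [hGper i] at h1
    exact (h1.unique (hT i)).1
  have hmono : ∀ i, a i ≤ a (i + 1) := fun i =>
    ((Nat.le_add_right _ _).trans (hlow i).1.symm.le).trans (hja (i + 1))
  have hconst := const_of_mono Y.npos haper hmono
  have ha : ∀ i, a i = a 0 := by
    intro i
    induction i with
    | zero => rfl
    | succ i ih => rw [hconst, ih]
  have hb : ∀ i, b i = 0 := by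
    intro i
    have h1 := (hlow i).1
    have h2 := hja (i + 1)
    have h3 := hconst i
    omega
  have hj : ∀ i, j (i + 1) = a (i + 1) := by
    intro i
    have h1 := (hlow i).1
    have h3 := hconst i
    have h4 := hb i
    omega
  have htT : ∀ i, residue O (ε (i + 1)) ≠ 0 ∧ t (i + 1) = C (residue O (ε (i + 1))) * T (i + 1) := by
    intro i
    have h1 := hε3 (i + 1)
    rw [← hj i, (ht (i + 1)).coeff_eq] at h1
    refine ⟨?_, h1⟩
    intro h2
    rw [h2, C_0, zero_mul] at h1
    exact (ht (i + 1)).ne h1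
  have hgv : ∀ i, eval (Pi.single 0 1) (rd O (g i)) ≠ 0 ∧
      S i = C (eval (Pi.single 0 1) (rd O (g i))) := by
    intro i
    have h1 := hS i
    rw [hb i] at h1
    exact eval_of_low h1
  -- positivity of a
  have hapos : 0 < a 0 := by
    by_contra hcon
    have ha0 : ∀ i, a i = 0 := fun i => by rw [ha i]; omega
    have hdu : ∀ i, IsUnit (d i) := by
      intro i
      have h1 := hε1 i
      rw [ha0 i, pow_zero] at h1
      exact IsUnit.of_mul_eq_one _ h1.symm
    have hcd : ∀ i, c i ∣ c (i + 1) := by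
      intro i
      obtain ⟨u, hu, h2, _⟩ := hun i
      have h3 : c i ∣ c (i + 1) * (d (i + 1) * u) := ⟨c' i, by rw [h2]; ring⟩
      exact ((hdu _).mul hu).dvd_mul_right.1 h3
    have hcj : ∀ i l, c i ∣ c (i + l) := by
      intro i l
      induction l with
      | zero => exact dvd_rfl
      | succ l ih => exact ih.trans (hcd _)
    have hc'u : ∀ i, IsUnit (c' i) := by
      intro i
      obtain ⟨u, hu, h2, _⟩ := hun i
      have h3 : c (i + 1) ∣ c i := by
        have h4 := hcj (i + 1) (n - 1)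
        have h5 : i + 1 + (n - 1) = i + n := by have := Y.npos; omega
        rwa [h5, hcper] at h4
      obtain ⟨r, hr⟩ := h3
      have h6 : c i * (c' i * r) = c i * (d (i + 1) * u) := by
        calc c i * (c' i * r) = (c i * c' i) * r := by ring
          _ = c (i + 1) * r * (d (i + 1) * u) := by rw [h2]; ring
          _ = c i * (d (i + 1) * u) := by rw [← hr]
      have h7 := mul_left_cancel₀ (G1 i).1 h6
      have h8 : IsUnit (c' i * r) := by rw [h7]; exact (hdu _).mul hu
      exact isUnit_of_mul_isUnit_left h8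
    have hhv : ∀ i, eval (Pi.single 0 1) (rd O (h i)) ≠ 0 := by
      intro i h1
      have h2 : rd O (sb w (h i)) = 0 := by
        apply th_inj (rd_hom (sb_hom w (Y.hh i)))
        ext l ee
        rw [Polynomial.coeff_zero, coeff_zero]
        by_contra hne2
        obtain ⟨dd, h3, h4, h5, h6⟩ := exists_of_th (rd_hom (sb_hom w (Y.hh i))) hne2
        rw [← h6, coeff_map, coeff_sb, map_mul, map_pow, V.wm] at hne2
        rcases Nat.eq_zero_or_pos (dd 1 + dd 2) with h7 | h7
        · have h8 := th_coeff (rd_hom (Y.hh i)) dd h3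
          rw [h7, th_coeff_zero, h1, C_0, coeff_zero, coeff_map] at h8
          rw [← h8, mul_zero] at hne2
          exact hne2 rfl
        · rw [zero_pow (by omega), zero_mul] at hne2
          exact hne2 rfl
      rw [(g1 i).2.1, map_mul, map_C] at h2
      rcases mul_eq_zero.1 h2 with h3 | h3
      · rw [C_eq_zero] at h3
        exact residue_ne_zero.2 (hc'u i) h3
      · exact (g1 i).2.2 h3
    have hLH : ∀ i, ∃ a t, Low (rd O (H i)) a t := fun i => exists_low (rd_hom (Y.hH i)) (Y.rH i)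
    choose o τ ho using hLH
    have hstep : ∀ i, o i = q * o (i + 1) := by
      intro i
      have h1 := congrArg (rd O) (Y.mul i)
      rw [rd_bind_F V.redF, map_mul] at h1
      have h2 := (ho (i + 1)).expand (q := q) (by omega)
      rw [h1] at h2
      have h3 := (ho i).mul (low_of_eval (hhv i))
      have h4 := (h2.unique h3).1
      omega
    have hpow : ∀ l, o 0 = q ^ l * o l := by
      intro l
      induction l with
      | zero => rw [pow_zero, one_mul]
      | succ l ih => rw [ih, hstep l, pow_succ]; ring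
    have hon : o n = o 0 := by
      have h1 := ho n
      have h2 : H n = H 0 := by have := Y.per 0; rwa [zero_add] at this
      rw [h2] at h1
      exact (h1.unique (ho 0)).1
    have h1 := hpow n
    rw [hon] at h1
    have h2 : 2 ≤ q ^ n := by
      calc 2 ≤ q := hq
        _ = q ^ 1 := (pow_one q).symm
        _ ≤ q ^ n := Nat.pow_le_pow_right (by omega) Y.npos
    have h3 : o 0 = 0 := by
      by_contra h4
      have h5 : 0 < o 0 := Nat.pos_of_ne_zero h4
      nlinarith
    have h4 := ho 0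
    rw [h3] at h4
    exact (eval_of_low h4).1 h0
  refine ⟨g, Kf, a 0, T, ?_⟩
  refine
    { apos := hapos
      hg := hgh
      hK := hKh
      rg := fun i => (hgv i).1
      rK := fun i => (K1 i).2.2
      irrK := ?_
      dvd := ?_
      Tne := fun i => (hT i).ne
      Kth := ?_
      Tlin := ?_ }
  · intro i
    apply irr_of_C_mul (K1 i).1
    rw [← (K1 i).2.1]
    apply irr_sb hv0
    apply irr_of_C_mul (G1 i).1
    rw [← (G1 i).2.1]
    exact irr_sb hw0 (Y.irr i)
  · intro i
    obtain ⟨u, _, _, h2⟩ := hun i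
    rw [h2]
    exact ⟨C u * G i, by ring⟩
  · intro i
    refine ⟨_, (htT i).1, ?_⟩
    rw [← (htT i).2]
    ext1 l
    rw [Polynomial.coeff_X_pow_mul', Polynomial.coeff_C]
    rcases Nat.lt_trichotomy l (a 0) with h1 | h1 | h1
    · rw [if_neg (by omega)]
      apply (ht (i + 1)).coeff_lt
      rw [hj i, ha]
      exact h1
    · subst h1
      rw [if_pos le_rfl, if_pos (by omega)]
      have := (ht (i + 1)).coeff_eq
      rwa [hj i, ha] at this
    · rw [if_pos h1.le, if_neg (by omega)]
      apply hε2 (i + 1)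
      rw [ha]; exact h1
  · intro i
    obtain ⟨_, u, hu, h1⟩ := hlow i
    obtain ⟨h2, h3⟩ := htT i
    obtain ⟨h4, h5⟩ := hgv i
    rw [h3, h5, map_mul] at h1
    have h6 : lin M (C (residue O (ε (i + 1)))) = C (residue O (ε (i + 1))) := by
      rw [← algebraMap_eq, AlgHom.commutes]
    rw [h6] at h1
    set x := residue O (ε (i + 1)) with hx
    set y := eval (Pi.single 0 1) (rd O (g i)) with hy
    refine ⟨x⁻¹ * (u * y), mul_ne_zero (inv_ne_zero h2) (mul_ne_zero hu h4), ?_⟩
    have h7 : lin M (T (i + 1)) = C x⁻¹ * (C x * lin M (T (i + 1))) := by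
      rw [← mul_assoc, ← C_mul, inv_mul_cancel₀ h2, C_1, one_mul]
    rw [h7, h1, C_mul, C_mul]
    ring

end main

end Pool.DynLehmerFam
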